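import Pool.Agent.H90.STK.Stmts

/-!
# Powers of a law (module PRD)
-/

set_option autoImplicit false

namespace Pool.STK

open Finset Real MeasureTheory
open Pool.Agent.H49.Ent Pool.Agent.H32.Dense

namespace PRD

variable {Ω ι S : Type} [Fintype Ω] [Fintype ι] [DecidableEq ι]

lemma sum_prod (g : ι → Ω → ℝ) : ∑ w : ι → Ω, ∏ i, g i (w i) = ∏ i, ∑ x, g i x := by
  classical
  rw [Finset.prod_univ_sum, Fintype.piFinset_univ]

lemma law_prd (p : Ω → ℝ) (f : ι → Ω → S) (y : ι → S) :
    law (prd p : (ι → Ω) → ℝ) (fun w i => f i (w i)) y = ∏ i, law p (f i) (y i) := by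
  classical
  unfold law
  rw [← sum_prod (fun i x => if f i x = y i then p x else 0)]
  refine Finset.sum_congr rfl fun w _ => ?_
  rw [Finset.prod_ite_zero]
  simp only [funext_iff, Finset.mem_univ, true_imp_iff]
  rfl

lemma marg_prd {p : Ω → ℝ} (h1 : ∑ ω, p ω = 1) (i : ι) :
    Marg (prd p : (ι → Ω) → ℝ) p (fun w => w i) := by
  classical
  intro ω
  have e : ∀ w : ι → Ω, (if w i = ω then prd p w else 0) =
      ∏ j, (if j = i then (if w j = ω then p (w j) else 0) else p (w j)) := by
    intro w
    unfold prd
    rw [← Finset.mul_prod_erase _ _ (Finset.mem_univ i),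
      ← Finset.mul_prod_erase (a := i) (s := Finset.univ)
        (f := fun j => if j = i then (if w j = ω then p (w j) else 0) else p (w j))
        (h := Finset.mem_univ i)]
    have e2 : ∏ j ∈ Finset.univ.erase i,
        (if j = i then (if w j = ω then p (w j) else 0) else p (w j)) =
        ∏ j ∈ Finset.univ.erase i, p (w j) := by
      refine Finset.prod_congr rfl fun j hj => ?_
      rw [if_neg (Finset.ne_of_mem_erase hj)]
    rw [e2]
    simp only [if_true]
    split_ifs <;> simp
  simp_rw [e]
  rw [sum_prod (fun j x => if j = i then (if x = ω then p x else 0) else p x),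
    Finset.prod_eq_single i]
  · simp
  · intro j _ hj
    simp only [if_neg hj]
    exact h1
  · intro h
    exact absurd (Finset.mem_univ _) h

end PRD

open PRD in
theorem prd_thm : PRDStmt := by
  classical
  intro Ω ι S _ _ _ p hp
  have h0 := hp.nonneg
  have h1 := hp.sum_one
  have hn : ∀ w : ι → Ω, 0 ≤ prd p w := fun w => Finset.prod_nonneg fun _ _ => h0 _
  refine ⟨⟨hn, ?_⟩, marg_prd h1, fun f => ?_⟩
  · unfold prd
    rw [sum_prod (fun _ x => p x)]
    simp [h1]
  · have e1 : ∀ i, H p (f i) = -∑ w : ι → Ω, prd p w * Real.log (law p (f i) (f i (w i))) := by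
      intro i
      have := (marg_prd (ι := ι) h1 i).ex (fun x => Real.log (law p (f i) (f i x)))
      unfold Ex at this
      unfold H
      rw [this]
    simp_rw [e1]
    rw [Finset.sum_neg_distrib, Finset.sum_comm]
    unfold H
    congr 1
    refine Finset.sum_congr rfl fun w _ => ?_
    rw [← Finset.mul_sum]
    rcases (hn w).eq_or_lt with hw | hw
    · rw [← hw]
      simp
    congr 1
    have l1 := law_prd p f (fun i => f i (w i))
    beta_reduce
    rw [l1, Real.log_prod]
    intro i _
    have hi : 0 < p (w i) := by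
      refine lt_of_le_of_ne (h0 _) fun h => ?_
      have : prd p w = 0 := Finset.prod_eq_zero (Finset.mem_univ i) h.symm
      rw [this] at hw
      exact lt_irrefl _ hw
    exact (law_pos h0 (f i) hi).ne'

end Pool.STK
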