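import Pool.Agent.H90.STK.Stmts

/-!
# Conditional independence of the copies (module MUI)
-/

set_option autoImplicit false

namespace Pool.STK

open Finset Real MeasureTheory
open Pool.Agent.H49.Ent Pool.Agent.H32.Dense

namespace MUI

variable {Ω β S : Type} [Fintype Ω]

lemma dbl_form (p : Ω → ℝ) (b : Ω → β) (a w : Ω) :
    dbl p b (a, w) = p a * cond p b (b a) w := by
  classical
  unfold dbl glue Pool.Agent.H49.Ent.cond
  by_cases h : b a = b w
  · simp only [h, if_true]
    ring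
  · simp only [h, Ne.symm h, if_false, mul_zero]

open Classical in
/-- The conditional law of `Y`. -/
noncomputable def kap (p : Ω → ℝ) (b : Ω → β) (Y : Ω × Ω → S) (a : Ω) (s : S) : ℝ :=
  ∑ w, if Y (a, w) = s then cond p b (b a) w else 0

lemma kap_pos {p : Ω → ℝ} (hp : ∀ ω, 0 ≤ p ω) (b : Ω → β) (Y : Ω × Ω → S) {a w : Ω}
    (h : 0 < cond p b (b a) w) : 0 < kap p b Y a (Y (a, w)) := by
  classical
  unfold kap
  refine lt_of_lt_of_le h ?_
  have := Finset.single_le_sum (f := fun x => if Y (a, x) = Y (a, w) then cond p b (b a) x else 0)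
    (fun i _ => by split_ifs; exact cond_nonneg hp b _ i; exact le_rfl) (Finset.mem_univ w)
  simpa using this

lemma law_dbl (p : Ω → ℝ) (b : Ω → β) (Y : Ω × Ω → S) (s : S) (a : Ω) :
    law (dbl p b) (fun w => (Y w, w.1)) (s, a) = p a * kap p b Y a s := by
  classical
  unfold law kap
  rw [Fintype.sum_prod_type, Finset.sum_eq_single a]
  · rw [Finset.mul_sum]
    refine Finset.sum_congr rfl fun w _ => ?_
    simp only [Prod.mk.injEq, and_true, dbl_form]
    split_ifs <;> simp
  · intro x _ hx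
    refine Finset.sum_eq_zero fun w _ => ?_
    rw [if_neg]
    simp only [Prod.mk.injEq]
    tauto
  · intro h
    exact absurd (Finset.mem_univ _) h

lemma law_multi {N : ℕ} (p : Ω → ℝ) (b : Fin N → Ω → β) (Y : Fin N → Ω × Ω → S)
    (y : Fin N → S) (a : Ω) :
    law (multi p b) (fun w => ((fun r => Y r (w.1, w.2 r)), w.1)) (y, a) =
      p a * ∏ r, kap p (b r) (Y r) a (y r) := by
  classical
  unfold law kap
  rw [Fintype.sum_prod_type, Finset.sum_eq_single a]
  · rw [Finset.prod_univ_sum, Finset.mul_sum, Fintype.piFinset_univ]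
    refine Finset.sum_congr rfl fun w _ => ?_
    rw [Finset.prod_ite_zero]
    simp only [Prod.mk.injEq, and_true, funext_iff, Finset.mem_univ, true_imp_iff]
    split_ifs with h
    · rfl
    · simp
  · intro x _ hx
    refine Finset.sum_eq_zero fun w _ => ?_
    rw [if_neg]
    simp only [Prod.mk.injEq]
    tauto
  · intro h
    exact absurd (Finset.mem_univ _) h

lemma multi_nonneg {N : ℕ} {p : Ω → ℝ} (hp : ∀ ω, 0 ≤ p ω) (b : Fin N → Ω → β)
    (w : Ω × (Fin N → Ω)) : 0 ≤ multi p b w :=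
  mul_nonneg (hp _) (Finset.prod_nonneg fun _ _ => cond_nonneg hp _ _ _)

lemma multi_pos {N : ℕ} {p : Ω → ℝ} (hp : ∀ ω, 0 ≤ p ω) {b : Fin N → Ω → β}
    {w : Ω × (Fin N → Ω)} (h : 0 < multi p b w) :
    0 < p w.1 ∧ ∀ r, 0 < cond p (b r) (b r w.1) (w.2 r) := by
  unfold multi at h
  have h1 : p w.1 ≠ 0 := by
    intro h0
    rw [h0] at h
    simp at h
  have h2 : ∏ r, cond p (b r) (b r w.1) (w.2 r) ≠ 0 := by
    intro h0
    rw [h0] at h
    simp at h
  rw [Finset.prod_ne_zero_iff] at h2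
  exact ⟨lt_of_le_of_ne (hp _) (Ne.symm h1), fun r =>
    lt_of_le_of_ne (cond_nonneg hp _ _ _) (Ne.symm (h2 r (Finset.mem_univ r)))⟩

lemma law_fst {Ω' : Type} [Fintype Ω'] {q : Ω × Ω' → ℝ} {p : Ω → ℝ}
    (h : Marg q p (fun w => w.1)) (a : Ω) : law q (fun w => w.1) a = p a := by
  have := h a
  unfold law
  exact this

end MUI

open MUI in
theorem mui_thm (hMUL : MULStmt) : MUIStmt := by
  classical
  intro Ω β S _ N p b hp Y
  obtain ⟨-, hM, hD⟩ := hMUL Ω β N p b hp
  have h0 := hp.nonneg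
  have e1 : CH (multi p b) (fun w r => Y r (w.1, w.2 r)) (fun w => w.1) =
      ∑ r, Ex (multi p b) (fun w => -Real.log (kap p (b r) (Y r) w.1 (Y r (w.1, w.2 r)))) := by
    rw [CH_eq_neg_sum (multi_nonneg h0 b)]
    unfold Ex
    rw [Finset.sum_comm]
    refine Finset.sum_congr rfl fun w _ => ?_
    rw [← Finset.mul_sum]
    rcases (multi_nonneg h0 b w).eq_or_lt with hw | hw
    · rw [← hw]
      simp
    obtain ⟨hw1, hw2⟩ := multi_pos h0 hw
    have hk : ∀ r ∈ (Finset.univ : Finset (Fin N)),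
        kap p (b r) (Y r) w.1 (Y r (w.1, w.2 r)) ≠ 0 :=
      fun r _ => (kap_pos h0 (b r) (Y r) (hw2 r)).ne'
    congr 1
    have l1 := law_multi p b Y (fun r => Y r (w.1, w.2 r)) w.1
    have l2 := law_fst hM w.1
    beta_reduce
    rw [l1, l2, mul_div_cancel_left₀ _ hw1.ne', Real.log_prod hk, Finset.sum_neg_distrib]
  have e2 : ∀ r, CH (dbl p (b r)) (Y r) (fun w => w.1) =
      Ex (dbl p (b r)) (fun w => -Real.log (kap p (b r) (Y r) w.1 (Y r w))) := by
    intro r
    rw [CH_eq_neg_sum (dbl_nonneg h0)]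
    unfold Ex
    refine Finset.sum_congr rfl fun w _ => ?_
    rcases (dbl_nonneg h0 (b := b r) w).eq_or_lt with hw | hw
    · rw [← hw]
      simp
    have hw1 : 0 < p w.1 := (dbl_fst h0).pos (dbl_nonneg h0) hw
    congr 1
    have l1 := law_dbl p (b r) (Y r) (Y r w) w.1
    have l2 := law_fst (dbl_fst (b := b r) h0) w.1
    beta_reduce
    rw [l1, l2, mul_div_cancel_left₀ _ hw1.ne']
  rw [e1]
  refine (Finset.sum_congr rfl fun r _ => ?_).le
  rw [e2 r]
  exact ((hD r).ex (fun w => -Real.log (kap p (b r) (Y r) w.1 (Y r w)))).symm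

end Pool.STK
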