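import Pool.Agent.H90.STK.StmtsT

/-!
# Summation over the cells (module TOV)
-/

set_option autoImplicit false

namespace Pool.STK

open Finset Real MeasureTheory
open scoped RealInnerProductSpace
open Pool.Agent.H49.Ent Pool.Agent.H32.Dense
open Pool.Agent.H53.Kak (E tube)
open Pool.Agent.H53.Dns (Mx psl slp)

namespace TOV

variable {d : ℕ} {ι : Type}

lemma hm_pos (d : ℕ) : 0 < hm d := by
  unfold hm
  positivity

lemma hm_le (d : ℕ) : hm d ≤ 1 / 8 := by
  unfold hm
  have : (0 : ℝ) ≤ d := Nat.cast_nonneg d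
  rw [div_le_div_iff₀ (by positivity) (by norm_num)]
  linarith

lemma exists_mx (e : E d) : ∃ k : Fin (d + 1), Mx k e := by
  obtain ⟨k, -, hk⟩ := Finset.exists_max_image (Finset.univ : Finset (Fin (d + 1)))
    (fun l => |e l|) ⟨0, Finset.mem_univ _⟩
  exact ⟨k, fun l => hk l (Finset.mem_univ l)⟩

/-- A maximal coordinate. -/
noncomputable def kk (e : E d) : Fin (d + 1) := (exists_mx e).choose

lemma kk_mx (e : E d) : Mx (kk e) e := (exists_mx e).choose_spec

/-- The number of the slab. -/
noncomputable def gg (c e : E d) : ℤ := ⌊c (kk e) / hm d⌋ - 1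

open Classical in
/-- The class of a tube. -/
noncomputable def cls (c e : E d) : Fin (d + 1) × Bool × ℤ × (Fin d → ℤ) :=
  (kk e, decide (0 < e (kk e)), gg c e, fl 0 (fun l => psl (kk e) c e (gg c e * hm d) l))

/-- The type of the labels. -/
abbrev Lab (d : ℕ) : Type := Fin (d + 1) × Bool × ℤ × (Fin d → ℤ)

lemma sl_meas (k : Fin (d + 1)) (g : ℤ) : MeasurableSet (sl k g : Set (E d)) := by
  have h1 : Measurable (fun x : E d => x k) :=
    (continuous_apply k |>.comp (PiLp.continuous_ofLp 2 _)).measurable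
  exact (measurableSet_le measurable_const h1).inter (measurableSet_lt h1 measurable_const)

lemma sl_floor {k : Fin (d + 1)} {g : ℤ} {x : E d} (h : x ∈ sl k g) : ⌊x k / hm d⌋ = g := by
  have hh := hm_pos d
  obtain ⟨h1, h2⟩ := h
  rw [Int.floor_eq_iff, le_div_iff₀ hh, div_lt_iff₀ hh]
  exact ⟨h1, h2⟩

/-- The labels of the cells near a point, for fixed coordinate and sign. -/
noncomputable def near (x : E d) (a : Fin (d + 1) × Bool) : Finset (Lab d) :=
  (Fintype.piFinset fun l : Fin d => Finset.Icc (⌊x (a.1.succAbove l)⌋ - 3)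
    (⌊x (a.1.succAbove l)⌋ + 3)).image fun q => (a.1, a.2, ⌊x a.1 / hm d⌋, q)

lemma card_near (x : E d) (a : Fin (d + 1) × Bool) : (near x a).card ≤ 7 ^ d := by
  unfold near
  refine Finset.card_image_le.trans ?_
  rw [Fintype.card_piFinset]
  refine (Finset.prod_le_pow_card _ _ 7 fun l _ => ?_).trans ?_
  · rw [Int.card_Icc]
    have : (⌊x (a.1.succAbove l)⌋ + 3 + 1 - (⌊x (a.1.succAbove l)⌋ - 3)) = 7 := by ring
    rw [this]
    rfl
  · simp

lemma floor_near {a b : ℝ} (h' : |a - b| < 3) :
    ⌊a⌋ - 3 ≤ ⌊b⌋ ∧ ⌊b⌋ ≤ ⌊a⌋ + 3 := by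
  rw [abs_lt] at h'
  have h1 := Int.floor_le a
  have h2 := Int.lt_floor_add_one a
  have h3 := Int.floor_le b
  have h4 := Int.lt_floor_add_one b
  constructor
  · have : ((⌊a⌋ - 3 : ℤ) : ℝ) < ((⌊b⌋ + 1 : ℤ) : ℝ) := by
      push_cast
      linarith [h'.1, h'.2]
    have := Int.cast_lt.mp this
    omega
  · have : ((⌊b⌋ : ℤ) : ℝ) < ((⌊a⌋ + 3 + 1 : ℤ) : ℝ) := by
      push_cast
      linarith [h'.1, h'.2]
    have := Int.cast_lt.mp this
    omega

/-- The label of a tube is one of the labels near any of its points in the slab. -/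
lemma mem_near {δ : ℝ} (hδ : 0 < δ) (hδ1 : δ < 1) {c e x : E d} (he : ‖e‖ = 1)
    (hx : x ∈ tube δ c e) (hs : x ∈ sl (cls c e).1 (cls c e).2.2.1) :
    cls c e ∈ near x ((cls c e).1, (cls c e).2.1) := by
  have hh := hm_pos d
  have hh8 := hm_le d
  have hmx := kk_mx e
  have hg := sl_floor hs
  unfold near
  rw [Finset.mem_image]
  refine ⟨(cls c e).2.2.2, ?_, ?_⟩
  · rw [Fintype.mem_piFinset]
    intro l
    rw [Finset.mem_Icc]
    have h1 := Pool.Agent.H53.Dns.near_psl hδ.le hmx he hx l
    have h2 := hmx.slp he l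
    have h3 : (gg c e : ℝ) * hm d ≤ x (kk e) ∧ x (kk e) < ((gg c e : ℝ) + 1) * hm d := hs
    have h4 : |psl (kk e) c e (x (kk e)) l - psl (kk e) c e (gg c e * hm d) l| ≤ 1 / 8 := by
      have : psl (kk e) c e (x (kk e)) l - psl (kk e) c e (gg c e * hm d) l =
          (x (kk e) - gg c e * hm d) * slp (kk e) e l := by
        simp only [psl]
        ring
      rw [this, abs_mul, abs_of_nonneg (by linarith [h3.1])]
      nlinarith [abs_nonneg (slp (kk e) e l), h3.1, h3.2]
    have h5 : |x ((kk e).succAbove l) - psl (kk e) c e (gg c e * hm d) l| < 3 := by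
      rw [abs_le] at h1 h4
      rw [abs_lt]
      constructor <;> linarith [h1.1, h1.2, h4.1, h4.2]
    have h6 := floor_near h5
    have h7 : (cls c e).2.2.2 l = ⌊psl (kk e) c e (gg c e * hm d) l⌋ := by
      simp only [cls, fl, rd, pow_zero, one_mul]
    rw [h7]
    exact h6
  · rw [hg]

/-- The part of the union of the tubes with label `a` in the slab. -/
def Sa (δ : ℝ) (c e : ι → E d) (a : Lab d) : Set (E d) :=
  (⋃ i : {i // cls (c i) (e i) = a}, tube δ (c i) (e i)) ∩ sl a.1 a.2.2.1

lemma Sa_meas [Fintype ι] (δ : ℝ) (c e : ι → E d) (a : Lab d) : MeasurableSet (Sa δ c e a) := by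
  classical
  refine MeasurableSet.inter ?_ (sl_meas _ _)
  exact MeasurableSet.iUnion fun i => Pool.Agent.H53.Kak.measurableSet_tube _ _ _

lemma cell_of (c e : ι → E d) (he : ∀ i, ‖e i‖ = 1) (a : Lab d) :
    Cell a.1 a.2.2.1 a.2.2.2 (fun i : {i // cls (c i) (e i) = a} => c i)
      (fun i : {i // cls (c i) (e i) = a} => e i) := by
  classical
  have hk : ∀ i : {i // cls (c i) (e i) = a}, kk (e i) = a.1 := fun i => by
    have := congrArg (fun z : Lab d => z.1) i.2
    exact this
  have hs : ∀ i : {i // cls (c i) (e i) = a}, decide (0 < e i (kk (e i))) = a.2.1 := fun i => by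
    have := congrArg (fun z : Lab d => z.2.1) i.2
    exact this
  have hg : ∀ i : {i // cls (c i) (e i) = a}, gg (c i) (e i) = a.2.2.1 := fun i => by
    have := congrArg (fun z : Lab d => z.2.2.1) i.2
    exact this
  have hq : ∀ i : {i // cls (c i) (e i) = a},
      fl 0 (fun l => psl (kk (e i)) (c i) (e i) (gg (c i) (e i) * hm d) l) = a.2.2.2 := fun i => by
    have := congrArg (fun z : Lab d => z.2.2.2) i.2
    exact this
  refine ⟨fun i => he i, fun i => ?_, ?_, fun i => ?_, fun i => ?_⟩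
  · rw [← hk i]
    exact kk_mx _
  · cases hb : a.2.1 with
    | true =>
      left
      intro i
      have := hs i
      rw [hb, decide_eq_true_eq, hk i] at this
      exact this
    | false =>
      right
      intro i
      have h1 := hs i
      rw [hb, decide_eq_false_iff_not, hk i, not_lt] at h1
      have h2 : e i a.1 ≠ 0 := by
        have := (kk_mx (e i)).ne (he i)
        rwa [hk i] at this
      exact lt_of_le_of_ne h1 h2
  · have := hg i
    unfold gg at this
    rw [hk i] at this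
    exact this
  · have := hq i
    rw [hg i, hk i] at this
    exact this

end TOV

open TOV in
theorem tov_thm : TOVStmt := by
  classical
  intro d
  refine ⟨1 / (2 * (d + 1) * 7 ^ d), by positivity, fun δ B hδ hδ1 hB ι _ c e he hcell => ?_⟩
  set U : Set (E d) := ⋃ i, tube δ (c i) (e i) with hU
  have hUm : MeasurableSet U :=
    MeasurableSet.iUnion fun i => Pool.Agent.H53.Kak.measurableSet_tube _ _ _
  set I : Finset (Lab d) := Finset.univ.image fun i => cls (c i) (e i) with hI
  have hK : ∀ x : E d, (I.filter (fun a => x ∈ Sa δ c e a)).card ≤ 2 * (d + 1) * 7 ^ d := by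
    intro x
    have hsub : I.filter (fun a => x ∈ Sa δ c e a) ⊆
        (Finset.univ : Finset (Fin (d + 1) × Bool)).biUnion (near x) := by
      intro a ha
      rw [Finset.mem_filter] at ha
      obtain ⟨-, hx1, hx2⟩ := ha
      obtain ⟨i, hi⟩ := Set.mem_iUnion.mp hx1
      have hia := i.2
      rw [Finset.mem_biUnion]
      refine ⟨(a.1, a.2.1), Finset.mem_univ _, ?_⟩
      have h1 := mem_near hδ hδ1 (he i) hi (by rw [hia]; exact hx2)
      rw [hia] at h1
      exact h1
    refine (Finset.card_le_card hsub).trans ((Finset.card_biUnion_le_card_mul _ _ (7 ^ d)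
      fun a _ => card_near x a).trans (le_of_eq ?_))
    rw [Finset.card_univ, Fintype.card_prod, Fintype.card_fin, Fintype.card_bool]
    ring
  have h1 := Pool.Agent.H32.AKT.sum_measure_le (volume : Measure (E d)) I (Sa δ c e)
    (fun a _ => Sa_meas δ c e a) hUm
    (fun a _ x hx => by
      obtain ⟨i, hi⟩ := Set.mem_iUnion.mp hx.1
      exact Set.mem_iUnion.mpr ⟨i.1, hi⟩) hK
  have h2 : ∑ a ∈ I, ENNReal.ofReal (B * Fintype.card {i // cls (c i) (e i) = a}) ≤
      ∑ a ∈ I, volume (Sa δ c e a) := by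
    refine Finset.sum_le_sum fun a _ => ?_
    exact hcell {i // cls (c i) (e i) = a} (fun i => i.1) a.1 a.2.2.1 a.2.2.2
      Subtype.val_injective (cell_of c e he a)
  have h3 : ∑ a ∈ I, ENNReal.ofReal (B * Fintype.card {i // cls (c i) (e i) = a}) =
      ENNReal.ofReal (B * Fintype.card ι) := by
    rw [← ENNReal.ofReal_sum_of_nonneg fun a _ => by positivity, ← Finset.mul_sum]
    congr 2
    have := Finset.card_eq_sum_card_image (fun i => cls (c i) (e i)) (Finset.univ : Finset ι)
    rw [Finset.card_univ] at this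
    rw [this]
    push_cast
    refine Finset.sum_congr rfl fun a _ => ?_
    rw [Fintype.card_subtype]
  rw [h3] at h2
  have h4 := h2.trans h1
  have e1 : (1 / (2 * ((d : ℝ) + 1) * 7 ^ d)) * B * Fintype.card ι =
      (1 / (2 * ((d : ℝ) + 1) * 7 ^ d)) * (B * Fintype.card ι) := by ring
  rw [e1, ENNReal.ofReal_mul (by positivity)]
  calc ENNReal.ofReal (1 / (2 * ((d : ℝ) + 1) * 7 ^ d)) * ENNReal.ofReal (B * Fintype.card ι)
      ≤ ENNReal.ofReal (1 / (2 * ((d : ℝ) + 1) * 7 ^ d)) *
        (((2 * (d + 1) * 7 ^ d : ℕ) : ENNReal) * volume U) := by gcongr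
    _ = volume U := by
        rw [← mul_assoc, ← ENNReal.ofReal_natCast, ← ENNReal.ofReal_mul (by positivity)]
        have : 1 / (2 * ((d : ℝ) + 1) * 7 ^ d) * ((2 * (d + 1) * 7 ^ d : ℕ) : ℝ) = 1 := by
          push_cast
          field_simp
        rw [this, ENNReal.ofReal_one, one_mul]

end Pool.STK
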